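import Pool.Agent.X184.SS.Stm2

/-! Part `SP_LEM` (backup). -/

set_option autoImplicit false

namespace Pool.Agent.X56.SP

open Finset Pool.Agent.X184.SS

/-- one vector -/
def HW (N : Set ℕ) (n : ℕ) : Prop := ∀ δ : ℝ, 0 < δ → ∀ u v : ℕ, ∃ w : ℕ →₀ ℝ, (∀ j, 0 ≤ w j) ∧
  ∑ j ∈ w.support, w j = 1 ∧ (∀ j ∈ w.support, j ∈ N ∧ u ≤ j) ∧ w.support ∈ Sch n ∧
  ∀ F ∈ Sch n, (∃ a ∈ F, a ≤ v) → ∑ j ∈ F, w j ≤ δ

theorem seqs {N : Set ℕ} {n : ℕ} (h : HW N n) : ∀ k : ℕ, ∀ δ : ℝ, 0 < δ → ∀ u v : ℕ,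
    ∃ w : Fin k → ℕ →₀ ℝ, (∀ r j, 0 ≤ w r j) ∧ (∀ r, ∑ j ∈ (w r).support, w r j = 1) ∧
      (∀ r, ∀ j ∈ (w r).support, j ∈ N ∧ u ≤ j) ∧ (∀ r, (w r).support ∈ Sch n) ∧
      (∀ r s, r < s → ∀ a ∈ (w r).support, ∀ b ∈ (w s).support, a < b) ∧
      (∀ F ∈ Sch n, ∑ r, ∑ j ∈ F, w r j ≤ 1 + δ) ∧
      (∀ F ∈ Sch n, (∃ a ∈ F, a ≤ v) → ∑ r, ∑ j ∈ F, w r j ≤ δ) := by
  intro k
  induction k with
  | zero =>
    intro δ hδ u v
    refine ⟨fun _ => 0, by simp, fun r => r.elim0, by simp, fun r => r.elim0, fun r => r.elim0, ?_, ?_⟩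
    · intro F _; simp; linarith
    · intro F _ _; simp; linarith
  | succ k ih =>
    intro δ hδ u v
    obtain ⟨w0, p1, p2, p3, p4, p5⟩ := h (δ / 2) (by positivity) u v
    set v' := max v (w0.support.sup id) with hv'
    obtain ⟨w, q1, q2, q3, q4, q5, q6, q7⟩ := ih (δ / 2) (by positivity) (max u (v' + 1)) v'
    have hle : ∀ a ∈ w0.support, a ≤ v' := by
      intro a ha
      exact (Finset.le_sup (f := id) ha).trans (le_max_right _ _)
    have hF1 : ∀ F : Finset ℕ, ∑ j ∈ F, w0 j ≤ 1 := by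
      intro F
      rw [← p2]
      calc ∑ j ∈ F, w0 j ≤ ∑ j ∈ F ∪ w0.support, w0 j :=
            Finset.sum_le_sum_of_subset_of_nonneg Finset.subset_union_left (fun j _ _ => p1 j)
        _ = ∑ j ∈ w0.support, w0 j := by
            symm
            apply Finset.sum_subset Finset.subset_union_right
            intro j _ hj
            simpa using hj
    refine ⟨Fin.cons w0 w, ?_, ?_, ?_, ?_, ?_, ?_, ?_⟩
    · intro r j
      refine Fin.cases ?_ (fun r => ?_) r
      · simpa using p1 j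
      · simpa using q1 r j
    · intro r
      refine Fin.cases ?_ (fun r => ?_) r
      · simpa using p2
      · simpa using q2 r
    · intro r
      refine Fin.cases ?_ (fun r => ?_) r
      · simpa using p3
      · intro j hj
        rw [Fin.cons_succ] at hj
        obtain ⟨a1, a2⟩ := q3 r j hj
        exact ⟨a1, (le_max_left _ _).trans a2⟩
    · intro r
      refine Fin.cases ?_ (fun r => ?_) r
      · simpa using p4
      · simpa using q4 r
    · intro r s
      refine Fin.cases ?_ (fun s => ?_) s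
      · intro hr; exact absurd hr (by simp)
      · refine Fin.cases ?_ (fun r => ?_) r
        · intro _ a ha b hb
          rw [Fin.cons_zero] at ha
          rw [Fin.cons_succ] at hb
          have h1 := hle a ha
          have h2 := (le_max_right _ _).trans (q3 s b hb).2
          omega
        · intro hrs a ha b hb
          rw [Fin.cons_succ] at ha hb
          exact q5 r s (by simpa using hrs) a ha b hb
    · intro F hF
      rw [Fin.sum_univ_succ]
      simp only [Fin.cons_zero, Fin.cons_succ]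
      by_cases hc : ∃ a ∈ F, a ≤ v'
      · have := q7 F hF hc
        have := hF1 F
        linarith
      · push_neg at hc
        have : ∑ j ∈ F, w0 j = 0 := by
          apply Finset.sum_eq_zero
          intro j hj
          by_contra h0
          have h1 := hle j (by simpa using h0)
          have h2 := hc j hj
          omega
        have := q6 F hF
        linarith
    · intro F hF hc
      rw [Fin.sum_univ_succ]
      simp only [Fin.cons_zero, Fin.cons_succ]
      have h1 := p5 F hF hc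
      obtain ⟨a, ha, hav⟩ := hc
      have h2 := q7 F hF ⟨a, ha, hav.trans (le_max_left _ _)⟩
      linarith

/-- the conclusion of LEM -/
def LE (N : Set ℕ) (n : ℕ) : Prop := ∀ ε : ℝ, 0 < ε → ∃ p : ℕ, ∀ u : ℕ,
    ∃ (z : ℕ →₀ ℝ) (G : Fin p → Finset ℕ), (∀ j, 0 ≤ z j) ∧ ∑ j ∈ z.support, z j = 1 ∧
      (∀ j ∈ z.support, j ∈ N ∧ u ≤ j) ∧ z.support ⊆ univ.biUnion G ∧ (∀ r, G r ∈ Sch n) ∧
      (∀ r s, r < s → ∀ a ∈ G r, ∀ b ∈ G s, a < b) ∧ (∀ r, ∀ a ∈ G r, a ∈ z.support) ∧
      ∀ F ∈ Sch n, ∑ j ∈ F, z j ≤ ε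

theorem le_of_hw {N : Set ℕ} {n : ℕ} (h : HW N n) : LE N n := by
  intro ε hε
  obtain ⟨q, hq⟩ := exists_nat_ge (2 / ε)
  have hp0 : (0 : ℝ) < ((q + 1 : ℕ) : ℝ) := by positivity
  refine ⟨q + 1, ?_⟩
  intro u
  obtain ⟨w, q1, q2, q3, q4, q5, q6, q7⟩ := seqs h (q + 1) 1 one_pos u 0
  set z : ℕ →₀ ℝ := (1 / ((q + 1 : ℕ) : ℝ)) • ∑ r, w r with hz
  have hzj : ∀ j, z j = (1 / ((q + 1 : ℕ) : ℝ)) * ∑ r, w r j := by
    intro j; rw [hz]; simp [Finsupp.finset_sum_apply]
  have hsupp : ∀ j, j ∈ z.support ↔ ∃ r, j ∈ (w r).support := by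
    intro j
    rw [Finsupp.mem_support_iff, hzj]
    constructor
    · intro h0
      by_contra hc
      push_neg at hc
      apply h0
      have : ∑ r, w r j = 0 := Finset.sum_eq_zero (fun r _ => by simpa using hc r)
      rw [this, mul_zero]
    · rintro ⟨r, hr⟩
      have h1 : 0 < w r j := lt_of_le_of_ne (q1 r j) (Ne.symm (by simpa using hr))
      have h2 : 0 < ∑ r, w r j :=
        Finset.sum_pos' (fun r _ => q1 r j) ⟨r, mem_univ _, h1⟩
      positivity
  refine ⟨z, fun r => (w r).support, ?_, ?_, ?_, ?_, q4, q5, ?_, ?_⟩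
  · intro j
    rw [hzj]
    exact mul_nonneg (by positivity) (Finset.sum_nonneg (fun r _ => q1 r j))
  · simp only [hzj]
    rw [← Finset.mul_sum, Finset.sum_comm]
    have : ∀ r, ∑ j ∈ z.support, w r j = 1 := by
      intro r
      rw [← q2 r]
      symm
      apply Finset.sum_subset
      · intro j hj; exact (hsupp j).mpr ⟨r, hj⟩
      · intro j _ hj; simpa using hj
    rw [Finset.sum_congr rfl (fun r _ => this r)]
    simp
    field_simp
  · intro j hj
    obtain ⟨r, hr⟩ := (hsupp j).mp hj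
    exact q3 r j hr
  · intro j hj
    obtain ⟨r, hr⟩ := (hsupp j).mp hj
    exact Finset.mem_biUnion.mpr ⟨r, mem_univ _, hr⟩
  · intro r a ha
    exact (hsupp a).mpr ⟨r, ha⟩
  · intro F hF
    simp only [hzj]
    rw [← Finset.mul_sum, Finset.sum_comm]
    have h1 := q6 F hF
    have h2 : 2 ≤ ε * ((q + 1 : ℕ) : ℝ) := by
      rw [div_le_iff₀ hε] at hq
      push_cast
      nlinarith
    rw [one_div, inv_mul_le_iff₀ hp0]
    linarith

theorem hw_zero {N : Set ℕ} (hN : N.Infinite) : HW N 0 := by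
  intro δ hδ u v
  obtain ⟨a, haN, ha⟩ := hN.exists_gt (max u v)
  refine ⟨Finsupp.single a 1, ?_, ?_, ?_, ?_, ?_⟩
  · intro j
    rw [Finsupp.single_apply]; split_ifs <;> norm_num
  · rw [Finsupp.support_single_ne_zero _ one_ne_zero]; simp
  · intro j hj
    rw [Finsupp.support_single_ne_zero _ one_ne_zero, Finset.mem_singleton] at hj
    subst hj
    exact ⟨haN, ((le_max_left _ _).trans_lt ha).le⟩
  · rw [Finsupp.support_single_ne_zero _ one_ne_zero]
    show Finset.card _ ≤ 1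
    simp
  · intro F hF ⟨b, hb, hbv⟩
    have hF' : F.card ≤ 1 := hF
    have hFb : F = {b} := by
      apply Finset.eq_singleton_iff_unique_mem.mpr
      exact ⟨hb, fun x hx => Finset.card_le_one.mp hF' x hx b hb⟩
    have : b ≠ a := by
      have := (le_max_right _ _).trans_lt ha
      omega
    rw [hFb, Finset.sum_singleton, Finsupp.single_apply, if_neg (Ne.symm this)]
    exact hδ.le

theorem hw_succ (hU : S_UNI) (hH : ∀ (n : ℕ) (F G : Finset ℕ), F ∈ Sch n → G ⊆ F → G ∈ Sch n)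
    {N : Set ℕ} {n : ℕ} (h : LE N n) : HW N (n + 1) := by
  intro δ hδ u v
  obtain ⟨p, hp⟩ := h (δ / (v + 1)) (by positivity)
  obtain ⟨z, G, q1, q2, q3, q4, q5, q6, q7, q8⟩ := hp (max u p)
  refine ⟨z, q1, q2, ?_, ?_, ?_⟩
  · intro j hj
    exact ⟨(q3 j hj).1, (le_max_left _ _).trans (q3 j hj).2⟩
  · apply hH (n + 1) (univ.biUnion G) _ _ q4
    apply hU n p G q5 q6
    intro i a ha
    have := (le_max_right _ _).trans (q3 a (q7 i a ha)).2
    omega
  · intro F hF ⟨a, ha, hav⟩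
    obtain ⟨k, H, h1, h2, h3, h4⟩ := hF
    have hk : k ≤ v + 1 := (h4 a ha).trans (by omega)
    have hdis : ((univ : Finset (Fin k)) : Set (Fin k)).PairwiseDisjoint H := by
      intro i _ j _ hij
      rw [Function.onFun, Finset.disjoint_left]
      intro x hx hx'
      rcases lt_or_gt_of_ne hij with hl | hl
      · exact lt_irrefl _ (h2 i j hl x hx x hx')
      · exact lt_irrefl _ (h2 j i hl x hx' x hx)
    rw [h3, Finset.sum_biUnion hdis]
    calc ∑ i, ∑ j ∈ H i, z j ≤ ∑ _i : Fin k, δ / (v + 1) :=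
          Finset.sum_le_sum (fun i _ => q8 (H i) (h1 i).2)
      _ = k * (δ / (v + 1)) := by simp
      _ ≤ (v + 1) * (δ / (v + 1)) := by
          apply mul_le_mul_of_nonneg_right _ (by positivity)
          exact_mod_cast hk
      _ = δ := by field_simp

theorem t_LEM : S_LEM := by
  intro hU hH n N hN
  have : ∀ n, LE N n := by
    intro n
    induction n with
    | zero => exact le_of_hw (hw_zero hN)
    | succ n ih => exact le_of_hw (hw_succ hU hH ih)
  exact this n

end Pool.Agent.X56.SP
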